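import Mathlib

set_option autoImplicit false

/-!
# Complexes, homology over `ℤ/2`, homology spheres, joins of boundaries of simplices
-/

namespace Pool.Agent.Q141.Join

open Finset

variable {α : Type} [Fintype α] [DecidableEq α]

/-- `X` is the set of faces of a simplicial complex with vertex set `α`. -/
def IsComplex (X : Finset (Finset α)) : Prop :=
  ∅ ∈ X ∧ (∀ v, {v} ∈ X) ∧ ∀ F ∈ X, ∀ G ⊆ F, G ∈ X

/-- The link of `σ`. -/
def link (X : Finset (Finset α)) (σ : Finset α) : Finset (Finset α) :=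
  X.filter fun τ => Disjoint τ σ ∧ τ ∪ σ ∈ X

/-- The boundary of a chain with coefficients in `ℤ/2`. A chain is a function on the sets of
vertices; `(∂c)(ρ)` is the sum of `c(τ)` over the sets `τ` which have one vertex more than `ρ`. -/
def bd (c : Finset α → ZMod 2) : Finset α → ZMod 2 :=
  fun ρ => ∑ v ∈ univ.filter (fun v => v ∉ ρ), c (insert v ρ)

/-- `c` is a chain of `X` in dimension `s - 1`: it is supported on faces of `X` with `s` vertices. -/
def IsChain (X : Finset (Finset α)) (s : ℕ) (c : Finset α → ZMod 2) : Prop :=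
  ∀ τ, c τ ≠ 0 → τ ∈ X ∧ τ.card = s

/-- `z` is a (reduced) cycle of `X` in dimension `s - 1`. -/
def IsCycle (X : Finset (Finset α)) (s : ℕ) (z : Finset α → ZMod 2) : Prop :=
  IsChain X s z ∧ bd z = 0

/-- `z` is the boundary of a chain of `X` (so `z` lives in dimension `s - 1`). -/
def IsBdry (X : Finset (Finset α)) (s : ℕ) (z : Finset α → ZMod 2) : Prop :=
  ∃ w, IsChain X (s + 1) w ∧ bd w = z

/-- `X` has the reduced homology over `ℤ/2` of a sphere of dimension `m - 1`: the reduced homology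
vanishes outside dimension `m - 1`, and it has exactly two elements in dimension `m - 1`. -/
def SphereHom (X : Finset (Finset α)) (m : ℕ) : Prop :=
  (∀ s, s ≠ m → ∀ z, IsCycle X s z → IsBdry X s z) ∧
  ∃ z₀, IsCycle X m z₀ ∧ ¬ IsBdry X m z₀ ∧ ∀ z, IsCycle X m z → IsBdry X m z ∨ IsBdry X m (z + z₀)

/-- `X` is a `ℤ/2`-homology sphere of dimension `d - 1`: a pure complex of dimension `d - 1` in which
the link of every face `σ` has the homology of a sphere of dimension `d - 1 - |σ|`. -/
def IsSphere (d : ℕ) (X : Finset (Finset α)) : Prop :=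
  IsComplex X ∧ (∀ F ∈ X, F.card ≤ d) ∧ (∀ F ∈ X, ∃ G ∈ X, F ⊆ G ∧ G.card = d) ∧
    ∀ σ ∈ X, SphereHom (link X σ) (d - σ.card)

/-- `τ` is a missing face of `X`. -/
def IsMissing (X : Finset (Finset α)) (τ : Finset α) : Prop := τ ∉ X ∧ ∀ ρ ⊂ τ, ρ ∈ X

/-- The class `S(j, d - 1)`: `(d-1)`-spheres all of whose missing faces have dimension at most `j`. -/
def InS (j d : ℕ) (X : Finset (Finset α)) : Prop :=
  IsSphere d X ∧ ∀ τ, IsMissing X τ → τ.card ≤ j + 1

open Polynomial in
/-- The polynomial `∑_i f_{i-1} (x - 1)^(d - i) = ∑_i h_i x^(d - i)`. -/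
noncomputable def hPoly (d : ℕ) (X : Finset (Finset α)) : ℤ[X] :=
  ∑ F ∈ X, (Polynomial.X - 1) ^ (d - F.card)

/-- The `h`-number `h_i` of a complex of dimension `d - 1`. -/
noncomputable def hNum (d : ℕ) (X : Finset (Finset α)) (i : ℕ) : ℤ := (hPoly d X).coeff (d - i)

/-- The `g`-number `g_j`. -/
noncomputable def gNum (d : ℕ) (X : Finset (Finset α)) (j : ℕ) : ℤ :=
  if j = 0 then 1 else hNum d X j - hNum d X (j - 1)

/-- The join `∂σ^(a 0) * ... * ∂σ^(a (m-1))` of the boundary complexes of simplices of dimensions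
`a j`; the simplex number `j` has the `a j + 1` vertices `(j, x)`. -/
def joinBd {m : ℕ} (a : Fin m → ℕ) : Finset (Finset (Σ j : Fin m, Fin (a j + 1))) :=
  univ.filter fun F => ∀ j, ∃ x, (⟨j, x⟩ : Σ j : Fin m, Fin (a j + 1)) ∉ F

/-- The dimensions of the simplices in `K(i, d - 1)`: write `d = q i + r` with `1 ≤ r ≤ i`, that is
`q = (d - 1) / i`; the dimensions are `i` (`q` times) and `r`. -/
def Kdim (i d : ℕ) : Fin ((d - 1) / i + 1) → ℕ :=
  fun j => if j.val < (d - 1) / i then i else d - (d - 1) / i * i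

/-- Isomorphism of complexes. -/
def Iso {β γ : Type} (X : Finset (Finset β)) (Y : Finset (Finset γ)) : Prop :=
  ∃ e : β ≃ γ, ∀ F : Finset β, F ∈ X ↔ F.map e.toEmbedding ∈ Y

end Pool.Agent.Q141.Join
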