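import Mathlib
import Pool.Agent.Q141.Join.Defs

set_option autoImplicit false

namespace Pool.Agent.Q141.Join

open Finset

variable {α : Type} [Fintype α] [DecidableEq α]

lemma bd_apply (c : Finset α → ZMod 2) (ρ : Finset α) :
    bd c ρ = ∑ v ∈ univ.filter (fun v => v ∉ ρ), c (insert v ρ) := rfl

lemma bd_add (c c' : Finset α → ZMod 2) : bd (c + c') = bd c + bd c' := by
  funext ρ
  simp only [bd_apply, Pi.add_apply, sum_add_distrib]

lemma bd_zero : bd (0 : Finset α → ZMod 2) = 0 := by
  funext ρ
  simp [bd_apply]

lemma add_self (c : Finset α → ZMod 2) : c + c = 0 := by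
  funext ρ
  exact CharTwo.add_self_eq_zero _

lemma bd_bd (c : Finset α → ZMod 2) : bd (bd c) = 0 := by
  funext ρ
  simp only [bd_apply, Pi.zero_apply]
  rw [Finset.sum_sigma']
  refine Finset.sum_involution (fun p _ => ⟨p.2, p.1⟩) ?_ ?_ ?_ ?_
  · intro p _
    rw [insert_comm]
    exact CharTwo.add_self_eq_zero _
  · intro p hp _ h
    simp only [mem_sigma, mem_filter, mem_univ, true_and, mem_insert, not_or] at hp
    have : p.2 = p.1 := congrArg Sigma.fst h
    exact hp.2.1 this
  · intro p hp
    simp only [mem_sigma, mem_filter, mem_univ, true_and, mem_insert, not_or] at hp ⊢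
    exact ⟨hp.2.2, fun h => hp.2.1 h.symm, hp.1⟩
  · intro p _
    rfl

/-- cone operator -/
def cone (a : α) (c : Finset α → ZMod 2) : Finset α → ZMod 2 :=
  fun F => if a ∈ F then c (F.erase a) else 0

lemma bd_cone (a : α) (c : Finset α → ZMod 2) : bd (cone a c) + cone a (bd c) = c := by
  funext F
  simp only [Pi.add_apply, bd_apply, cone]
  by_cases ha : a ∈ F
  · rw [if_pos ha]
    have e1 : (univ.filter (fun v => v ∉ F.erase a)) = insert a (univ.filter (fun v => v ∉ F)) := by
      ext v
      simp only [mem_filter, mem_univ, true_and, mem_erase, not_and, mem_insert]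
      constructor
      · intro h
        by_cases hv : v = a
        · exact Or.inl hv
        · exact Or.inr (h hv)
      · rintro (h | h)
        · intro h2; exact absurd h h2
        · intro _; exact h
    rw [e1, sum_insert (by simp [ha]), insert_erase ha]
    have e2 : ∀ v ∈ univ.filter (fun v => v ∉ F), (if a ∈ insert v F then c ((insert v F).erase a) else 0)
        = c (insert v (F.erase a)) := by
      intro v hv
      rw [if_pos (mem_insert_of_mem ha)]
      have hva : v ≠ a := by
        rintro rfl
        simp [ha] at hv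
      rw [erase_insert_of_ne hva]
    rw [sum_congr rfl e2, ← add_assoc, add_comm _ (c F), add_assoc, CharTwo.add_self_eq_zero, add_zero]
  · rw [if_neg ha, add_zero, sum_eq_single a]
    · rw [if_pos (mem_insert_self a F), erase_insert ha]
    · intro v hv hva
      rw [if_neg]
      rw [mem_insert, not_or]
      exact ⟨fun h => hva h.symm, ha⟩
    · intro h
      simp [ha] at h

/-- restriction to the faces containing `A` -/
def top (A : Finset α) (w : Finset α → ZMod 2) : Finset α → ZMod 2 :=
  fun G => if Disjoint G A then w (A ∪ G) else 0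

/-- extension from faces containing `A` -/
def ext (A : Finset α) (e : Finset α → ZMod 2) : Finset α → ZMod 2 :=
  fun F => if A ⊆ F then e (F \ A) else 0

lemma bd_top (A : Finset α) (w : Finset α → ZMod 2) (G : Finset α) (hG : Disjoint G A) :
    bd (top A w) G = bd w (A ∪ G) := by
  rw [bd_apply, bd_apply]
  have e1 : (univ.filter (fun v => v ∉ G)) = (univ.filter (fun v => v ∉ A ∪ G)) ∪ A := by
    ext v
    simp only [mem_filter, mem_univ, true_and, mem_union, not_or]
    constructor
    · intro h
      by_cases hv : v ∈ A
      · exact Or.inr hv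
      · exact Or.inl ⟨hv, h⟩
    · rintro (h | h)
      · exact h.2
      · exact fun h2 => (disjoint_left.1 hG h2) h
  rw [e1, sum_union]
  · have e2 : ∑ v ∈ A, top A w (insert v G) = 0 := by
      apply sum_eq_zero
      intro v hv
      unfold top
      rw [if_neg]
      intro h
      exact disjoint_left.1 h (mem_insert_self v G) hv
    rw [e2, add_zero]
    apply sum_congr rfl
    intro v hv
    simp only [mem_filter, mem_univ, true_and, mem_union, not_or] at hv
    unfold top
    rw [if_pos]
    · congr 1
      ext x
      simp only [mem_union, mem_insert]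
      tauto
    · rw [disjoint_insert_left]
      exact ⟨hv.1, hG⟩
  · rw [disjoint_left]
    intro v hv
    simp only [mem_filter, mem_univ, true_and, mem_union, not_or] at hv
    exact hv.1

lemma bd_top' (A : Finset α) (w : Finset α → ZMod 2) (G : Finset α) (hG : ¬ Disjoint G A) :
    bd (top A w) G = 0 := by
  rw [bd_apply]
  apply sum_eq_zero
  intro v _
  unfold top
  rw [if_neg]
  intro h
  rw [disjoint_insert_left] at h
  exact hG h.2

/-- the join of `∂σ_A` with `Γ` -/
def jn (A : Finset α) (Γ : Finset (Finset α)) : Finset (Finset α) :=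
  univ.filter fun F => ¬ A ⊆ F ∧ F \ A ∈ Γ

lemma mem_jn (A : Finset α) (Γ : Finset (Finset α)) (F : Finset α) :
    F ∈ jn A Γ ↔ ¬ A ⊆ F ∧ F \ A ∈ Γ := by simp [jn]

section step

variable (A : Finset α) (Γ : Finset (Finset α)) (hΓ : ∀ F ∈ Γ, Disjoint F A)

include hΓ in
lemma bd_ext_of_subset {s : ℕ} (e : Finset α → ZMod 2) (he : IsChain Γ s e) (F : Finset α)
    (hF : A ⊆ F) : bd (ext A e) F = bd e (F \ A) := by
  rw [bd_apply, bd_apply]
  have e1 : (univ.filter (fun v => v ∉ F \ A)) = (univ.filter (fun v => v ∉ F)) ∪ A := by
    ext v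
    simp only [mem_filter, mem_univ, true_and, mem_union, mem_sdiff, not_and, not_not]
    constructor
    · intro h
      by_cases hv : v ∈ F
      · exact Or.inr (h hv)
      · exact Or.inl hv
    · rintro (h | h)
      · intro h2; exact absurd h2 h
      · intro _; exact h
  rw [e1, sum_union]
  · have e2 : ∑ v ∈ A, e (insert v (F \ A)) = 0 := by
      apply sum_eq_zero
      intro v hv
      by_contra h
      have h2 := hΓ _ (he _ h).1
      exact disjoint_left.1 h2 (mem_insert_self v _) hv
    rw [e2, add_zero]
    apply sum_congr rfl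
    intro v hv
    simp only [mem_filter, mem_univ, true_and] at hv
    unfold ext
    rw [if_pos (hF.trans (subset_insert v F)), insert_sdiff_of_notMem]
    exact fun h => hv (hF h)
  · rw [disjoint_left]
    intro v hv hv2
    simp only [mem_filter, mem_univ, true_and] at hv
    exact hv (hF hv2)

lemma bd_ext_not_subset {s : ℕ} (e : Finset α → ZMod 2) (he : IsChain Γ s e) (F : Finset α)
    (hF : ¬ A ⊆ F) (h : bd (ext A e) F ≠ 0) : F \ A ∈ Γ ∧ F.card + 1 = s + A.card := by
  rw [bd_apply] at h
  obtain ⟨v, hv, h2⟩ := exists_ne_zero_of_sum_ne_zero h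
  simp only [mem_filter, mem_univ, true_and] at hv
  unfold ext at h2
  split_ifs at h2 with h3
  · have hvA : v ∈ A := by
      by_contra hvA
      apply hF
      intro x hx
      rcases mem_insert.1 (h3 hx) with h4 | h4
      · subst h4; exact absurd hx hvA
      · exact h4
    rw [insert_sdiff_of_mem _ hvA] at h2
    have h4 := he _ h2
    refine ⟨h4.1, ?_⟩
    have h5 : ((insert v F) \ A).card + A.card = (insert v F).card := by
      rw [card_sdiff_add_card, union_eq_left.2 h3]
    rw [insert_sdiff_of_mem _ hvA, h4.2, card_insert_of_notMem hv] at h5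
    omega
  · exact absurd rfl h2

/-- the full cone `σ_A * Γ` is acyclic -/
lemma full_acyclic {a : α} (ha : a ∈ A) {s : ℕ} (z : Finset α → ZMod 2)
    (hz : ∀ F, z F ≠ 0 → F \ A ∈ Γ ∧ F.card = s) (hz2 : bd z = 0) :
    ∃ w : Finset α → ZMod 2, (∀ F, w F ≠ 0 → F \ A ∈ Γ ∧ F.card = s + 1) ∧ bd w = z := by
  refine ⟨cone a z, ?_, ?_⟩
  · intro F hF
    unfold cone at hF
    split_ifs at hF with h
    · have h2 := hz _ hF
      constructor
      · have : F.erase a \ A = F \ A := by
          ext x
          simp only [mem_sdiff, mem_erase]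
          constructor
          · rintro ⟨⟨_, h3⟩, h4⟩; exact ⟨h3, h4⟩
          · rintro ⟨h3, h4⟩
            exact ⟨⟨fun h5 => h4 (h5 ▸ ha), h3⟩, h4⟩
        rw [this] at h2
        exact h2.1
      · rw [← card_erase_add_one h, h2.2]
    · exact absurd rfl hF
  · have := bd_cone a z
    rw [hz2] at this
    have h0 : cone a (0 : Finset α → ZMod 2) = 0 := by
      funext F
      simp [cone]
    rw [h0, add_zero] at this
    exact this

include hΓ in
lemma key {s s' : ℕ} (hs : s' + A.card = s + 1) (z w : Finset α → ZMod 2)
    (hw : ∀ F, w F ≠ 0 → F \ A ∈ Γ ∧ F.card = s + 1) (hwz : bd w = z)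
    (h : IsBdry Γ s' (top A w)) : IsBdry (jn A Γ) s z := by
  obtain ⟨e, he, he2⟩ := h
  refine ⟨w + bd (ext A e), ?_, by rw [bd_add, bd_bd, add_zero, hwz]⟩
  intro F hF
  by_cases hAF : A ⊆ F
  · exfalso
    apply hF
    rw [Pi.add_apply, bd_ext_of_subset A Γ hΓ e he F hAF, he2]
    unfold top
    rw [if_pos disjoint_sdiff_self_left, union_sdiff_of_subset hAF]
    exact CharTwo.add_self_eq_zero _
  · rw [mem_jn]
    by_cases hwF : w F = 0
    · rw [Pi.add_apply, hwF, zero_add] at hF
      have := bd_ext_not_subset A Γ e he F hAF hF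
      exact ⟨⟨hAF, this.1⟩, by omega⟩
    · have := hw F hwF
      exact ⟨⟨hAF, this.1⟩, this.2⟩

include hΓ in
lemma top_cycle {s s' : ℕ} (hs : s' + A.card = s + 1) (z w : Finset α → ZMod 2)
    (hz : IsChain (jn A Γ) s z)
    (hw : ∀ F, w F ≠ 0 → F \ A ∈ Γ ∧ F.card = s + 1) (hwz : bd w = z) :
    IsCycle Γ s' (top A w) := by
  constructor
  · intro G hG
    unfold top at hG
    split_ifs at hG with h
    · have h2 := hw _ hG
      rw [union_sdiff_left, sdiff_eq_self_of_disjoint h] at h2
      refine ⟨h2.1, ?_⟩
      have h3 := h2.2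
      rw [card_union_of_disjoint h.symm] at h3
      omega
    · exact absurd rfl hG
  · funext G
    by_cases hG : Disjoint G A
    · rw [bd_top A w G hG, hwz]
      by_contra h
      have := (hz _ h).1
      rw [mem_jn] at this
      exact this.1 subset_union_left
    · exact bd_top' A w G hG

include hΓ in
theorem join_step (hA : A.Nonempty) {m : ℕ} (h : SphereHom Γ m) :
    SphereHom (jn A Γ) (m + (A.card - 1)) := by
  obtain ⟨a, ha⟩ := hA
  have hApos : 0 < A.card := card_pos.2 ⟨a, ha⟩
  -- every cycle bounds in the full cone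
  have hfull : ∀ s z, IsCycle (jn A Γ) s z → ∃ w : Finset α → ZMod 2,
      (∀ F, w F ≠ 0 → F \ A ∈ Γ ∧ F.card = s + 1) ∧ bd w = z := by
    intro s z hz
    apply full_acyclic A Γ ha z _ hz.2
    intro F hF
    have := hz.1 F hF
    rw [mem_jn] at this
    exact ⟨this.1.2, this.2⟩
  refine ⟨?_, ?_⟩
  · intro s hs z hz
    obtain ⟨w, hw, hwz⟩ := hfull s z hz
    by_cases hsA : A.card ≤ s + 1
    · obtain ⟨s', hs'⟩ : ∃ s', s' + A.card = s + 1 := ⟨s + 1 - A.card, by omega⟩
      apply key A Γ hΓ hs' z w hw hwz
      apply h.1 s' (by omega)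
      exact top_cycle A Γ hΓ hs' z w hz.1 hw hwz
    · refine ⟨w, ?_, hwz⟩
      intro F hF
      have h2 := hw F hF
      rw [mem_jn]
      refine ⟨⟨fun h3 => ?_, h2.1⟩, h2.2⟩
      have := card_le_card h3
      omega
  · obtain ⟨z0, hz0, hz0b, hz0c⟩ := h.2
    set s := m + (A.card - 1) with hs
    have hs' : m + A.card = s + 1 := by omega
    have hchain : IsChain (jn A Γ) s (bd (ext A z0)) := by
      intro F hF
      by_cases hAF : A ⊆ F
      · exfalso
        rw [bd_ext_of_subset A Γ hΓ z0 hz0.1 F hAF, hz0.2] at hF
        exact hF rfl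
      · have := bd_ext_not_subset A Γ z0 hz0.1 F hAF hF
        rw [mem_jn]
        exact ⟨⟨hAF, this.1⟩, by omega⟩
    have hext : ∀ F, ext A z0 F ≠ 0 → F \ A ∈ Γ ∧ F.card = s + 1 := by
      intro F hF
      unfold ext at hF
      split_ifs at hF with h3
      · have h4 := hz0.1 _ hF
        refine ⟨h4.1, ?_⟩
        have h5 : (F \ A).card + A.card = F.card := by
          rw [card_sdiff_add_card, union_eq_left.2 h3]
        omega
      · exact absurd rfl hF
    have htop : top A (ext A z0) = z0 := by
      funext G
      unfold top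
      by_cases hG : Disjoint G A
      · rw [if_pos hG]
        unfold ext
        rw [if_pos subset_union_left, union_sdiff_left, sdiff_eq_self_of_disjoint hG]
      · rw [if_neg hG]
        by_contra h3
        exact hG (hΓ _ (hz0.1 G (Ne.symm h3)).1)
    have htop_add : ∀ w w' : Finset α → ZMod 2, top A (w + w') = top A w + top A w' := by
      intro w w'
      funext G
      simp only [top, Pi.add_apply]
      split_ifs <;> simp
    refine ⟨bd (ext A z0), ⟨hchain, bd_bd _⟩, ?_, ?_⟩
    · rintro ⟨w', hw', hw'2⟩
      apply hz0b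
      -- y = ext z0 + w'
      obtain ⟨u, hu, hu2⟩ := full_acyclic A Γ ha (s := s + 1) (ext A z0 + w') (by
        intro F hF
        by_cases h3 : ext A z0 F = 0
        · rw [Pi.add_apply, h3, zero_add] at hF
          have := hw' F hF
          rw [mem_jn] at this
          exact ⟨this.1.2, this.2⟩
        · exact hext F h3) (by rw [bd_add, hw'2, add_self])
      refine ⟨top A u, ?_, ?_⟩
      · intro G hG
        unfold top at hG
        split_ifs at hG with h3
        · have h4 := hu _ hG
          rw [union_sdiff_left, sdiff_eq_self_of_disjoint h3] at h4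
          refine ⟨h4.1, ?_⟩
          have h5 := h4.2
          rw [card_union_of_disjoint h3.symm] at h5
          omega
        · exact absurd rfl hG
      · funext G
        by_cases hG : Disjoint G A
        · rw [bd_top A u G hG, hu2, Pi.add_apply]
          have h3 : w' (A ∪ G) = 0 := by
            by_contra h4
            have := (hw' _ h4).1
            rw [mem_jn] at this
            exact this.1 subset_union_left
          rw [h3, add_zero]
          have := congrFun htop G
          unfold top at this
          rw [if_pos hG] at this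
          exact this
        · rw [bd_top' A u G hG]
          by_contra h3
          exact hG (hΓ _ (hz0.1 G (Ne.symm h3)).1)
    · intro z hz
      obtain ⟨w, hw, hwz⟩ := hfull s z hz
      have hcyc := top_cycle A Γ hΓ hs' z w hz.1 hw hwz
      rcases hz0c _ hcyc with h3 | h3
      · exact Or.inl (key A Γ hΓ hs' z w hw hwz h3)
      · right
        apply key A Γ hΓ hs' (z + bd (ext A z0)) (w + ext A z0)
        · intro F hF
          by_cases h4 : w F = 0
          · rw [Pi.add_apply, h4, zero_add] at hF
            exact hext F hF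
          · exact hw F h4
        · rw [bd_add, hwz]
        · rw [htop_add, htop]
          exact h3

end step

lemma sphereHom_empty : SphereHom ({∅} : Finset (Finset α)) 0 := by
  have hchain : ∀ s, s ≠ 0 → ∀ z : Finset α → ZMod 2, IsChain {∅} s z → z = 0 := by
    intro s hs z hz
    funext F
    by_contra h
    have := hz F h
    rw [mem_singleton] at this
    rw [this.1, card_empty] at this
    exact hs this.2.symm
  refine ⟨?_, ?_⟩
  · intro s hs z hz
    refine ⟨0, ?_, ?_⟩
    · intro F hF; exact absurd rfl hF
    · rw [bd_zero, hchain s hs z hz.1]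
  · refine ⟨fun F => if F = ∅ then 1 else 0, ⟨?_, ?_⟩, ?_, ?_⟩
    · intro F hF
      simp only [ne_eq, ite_eq_right_iff, one_ne_zero, imp_false, not_not] at hF
      subst hF
      simp
    · funext F
      rw [bd_apply]
      apply sum_eq_zero
      intro v _
      rw [if_neg (insert_ne_empty v F)]
    · rintro ⟨w, hw, hw2⟩
      rw [hchain 1 one_ne_zero w hw, bd_zero] at hw2
      have := congrFun hw2 ∅
      simp at this
    · intro z hz
      have hsupp : ∀ F, F ≠ ∅ → z F = 0 := by
        intro F hF
        by_contra h
        have := (hz.1 F h).1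
        rw [mem_singleton] at this
        exact hF this
      have h01 : z ∅ = 0 ∨ z ∅ = 1 := by
        generalize z ∅ = t
        revert t; decide
      rcases h01 with h | h
      · left
        refine ⟨0, ?_, ?_⟩
        · intro F hF; exact absurd rfl hF
        · rw [bd_zero]
          funext F
          by_cases hF : F = ∅
          · rw [hF, h]; rfl
          · rw [hsupp F hF]; rfl
      · right
        refine ⟨0, ?_, ?_⟩
        · intro F hF; exact absurd rfl hF
        · rw [bd_zero]
          funext F
          by_cases hF : F = ∅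
          · subst hF
            show (0 : ZMod 2) = z ∅ + (if (∅ : Finset α) = ∅ then 1 else 0)
            rw [h, if_pos rfl]; decide
          · show (0 : ZMod 2) = z F + (if F = ∅ then 1 else 0)
            rw [hsupp F hF, if_neg hF]; decide

end Pool.Agent.Q141.Join
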