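import Mathlib
import Pool.Agent.Q141.Join.Hom

set_option autoImplicit false
set_option linter.unusedSectionVars false

namespace Pool.Agent.Q141.Join

open Finset

variable {α : Type} [Fintype α] [DecidableEq α] {ι : Type} [DecidableEq ι]

/-- join of the boundaries of the simplices on the sets `A j`, `j ∈ s` -/
def J (A : ι → Finset α) (s : Finset ι) : Finset (Finset α) :=
  univ.filter fun F => F ⊆ s.biUnion A ∧ ∀ j ∈ s, ¬ A j ⊆ F

lemma mem_J (A : ι → Finset α) (s : Finset ι) (F : Finset α) :
    F ∈ J A s ↔ F ⊆ s.biUnion A ∧ ∀ j ∈ s, ¬ A j ⊆ F := by simp [J]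

lemma J_insert (A : ι → Finset α) (s : Finset ι) (i : ι) (hi : i ∉ s)
    (hd : ∀ j ∈ s, Disjoint (A j) (A i)) : J A (insert i s) = jn (A i) (J A s) := by
  ext F
  rw [mem_J, mem_jn, mem_J]
  constructor
  · rintro ⟨h1, h2⟩
    refine ⟨h2 i (mem_insert_self i s), ?_, ?_⟩
    · intro x hx
      rw [mem_sdiff] at hx
      have := h1 hx.1
      rw [biUnion_insert, mem_union] at this
      rcases this with h | h
      · exact absurd h hx.2
      · exact h
    · intro j hj h
      exact h2 j (mem_insert_of_mem hj) (h.trans sdiff_subset)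
  · rintro ⟨h1, h2, h3⟩
    constructor
    · intro x hx
      rw [biUnion_insert, mem_union]
      by_cases hxi : x ∈ A i
      · exact Or.inl hxi
      · exact Or.inr (h2 (mem_sdiff.2 ⟨hx, hxi⟩))
    · intro j hj h
      rcases mem_insert.1 hj with rfl | hj
      · exact h1 h
      · apply h3 j hj
        intro x hx
        rw [mem_sdiff]
        exact ⟨h hx, disjoint_left.1 (hd j hj) hx⟩

lemma J_disjoint (A : ι → Finset α) (s : Finset ι) (i : ι)
    (hd : ∀ j ∈ s, Disjoint (A j) (A i)) : ∀ F ∈ J A s, Disjoint F (A i) := by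
  intro F hF
  rw [mem_J] at hF
  apply Finset.disjoint_of_subset_left hF.1
  rw [disjoint_biUnion_left]
  exact hd

theorem sphereHom_J (A : ι → Finset α) (s : Finset ι) (hne : ∀ j ∈ s, (A j).Nonempty)
    (hd : ∀ i ∈ s, ∀ j ∈ s, i ≠ j → Disjoint (A i) (A j)) :
    SphereHom (J A s) (∑ j ∈ s, ((A j).card - 1)) := by
  induction s using Finset.induction_on with
  | empty =>
    have : J A ∅ = {∅} := by
      ext F
      rw [mem_J]
      simp
    rw [this, sum_empty]
    exact sphereHom_empty
  | insert i s hi ih =>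
    have hd' : ∀ j ∈ s, Disjoint (A j) (A i) := fun j hj =>
      hd j (mem_insert_of_mem hj) i (mem_insert_self i s) (fun h => hi (h ▸ hj))
    rw [J_insert A s i hi hd', sum_insert hi, add_comm]
    apply join_step (A i) (J A s) (J_disjoint A s i hd') (hne i (mem_insert_self i s))
    exact ih (fun j hj => hne j (mem_insert_of_mem hj))
      (fun a ha b hb => hd a (mem_insert_of_mem ha) b (mem_insert_of_mem hb))

lemma link_J (A : ι → Finset α) (s : Finset ι) (σ : Finset α) (hσ : σ ∈ J A s) :
    link (J A s) σ = J (fun j => A j \ σ) s := by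
  ext τ
  unfold link
  rw [mem_filter, mem_J, mem_J, mem_J]
  rw [mem_J] at hσ
  constructor
  · rintro ⟨⟨h1, h2⟩, h3, h4, h5⟩
    constructor
    · intro x hx
      have := h1 hx
      rw [mem_biUnion] at this ⊢
      obtain ⟨j, hj, hxj⟩ := this
      exact ⟨j, hj, mem_sdiff.2 ⟨hxj, disjoint_left.1 h3 hx⟩⟩
    · intro j hj h
      apply h5 j hj
      intro x hx
      rw [mem_union]
      by_cases hxs : x ∈ σ
      · exact Or.inr hxs
      · exact Or.inl (h (mem_sdiff.2 ⟨hx, hxs⟩))
  · rintro ⟨h1, h2⟩
    have h3 : Disjoint τ σ := by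
      rw [disjoint_left]
      intro x hx
      have := h1 hx
      rw [mem_biUnion] at this
      obtain ⟨j, _, hxj⟩ := this
      exact (mem_sdiff.1 hxj).2
    have h4 : ∀ j ∈ s, ¬ A j ⊆ τ ∪ σ := by
      intro j hj h
      apply h2 j hj
      intro x hx
      rw [mem_sdiff] at hx
      rcases mem_union.1 (h hx.1) with h5 | h5
      · exact h5
      · exact absurd h5 hx.2
    have h5 : τ ⊆ s.biUnion A := by
      intro x hx
      have := h1 hx
      rw [mem_biUnion] at this ⊢
      obtain ⟨j, hj, hxj⟩ := this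
      exact ⟨j, hj, (mem_sdiff.1 hxj).1⟩
    exact ⟨⟨h5, fun j hj h => h4 j hj (h.trans subset_union_left)⟩, h3,
      union_subset h5 hσ.1, h4⟩

lemma card_eq_sum (A : ι → Finset α) (s : Finset ι)
    (hd : ∀ i ∈ s, ∀ j ∈ s, i ≠ j → Disjoint (A i) (A j)) (F : Finset α) (hF : F ⊆ s.biUnion A) :
    F.card = ∑ j ∈ s, (A j ∩ F).card := by
  have : F = s.biUnion (fun j => A j ∩ F) := by
    rw [← biUnion_inter, inter_eq_right.2 hF]
  conv_lhs => rw [this]
  apply card_biUnion
  intro i hi j hj hij
  exact Finset.disjoint_of_subset_left inter_subset_left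
    (Finset.disjoint_of_subset_right inter_subset_left (hd i hi j hj hij))

lemma inter_card_le (A : ι → Finset α) (s : Finset ι) (F : Finset α) (hF : F ∈ J A s) :
    ∀ j ∈ s, (A j ∩ F).card ≤ (A j).card - 1 := by
  intro j hj
  rw [mem_J] at hF
  have : (A j ∩ F).card < (A j).card := by
    apply card_lt_card
    refine ⟨inter_subset_left, fun h => hF.2 j hj ?_⟩
    exact h.trans inter_subset_right
  omega

/-- `J` is a homology sphere -/
theorem isSphere_J (A : ι → Finset α) (s : Finset ι) (hne : ∀ j ∈ s, 2 ≤ (A j).card)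
    (hd : ∀ i ∈ s, ∀ j ∈ s, i ≠ j → Disjoint (A i) (A j)) (hcov : ∀ x, x ∈ s.biUnion A) :
    IsSphere (∑ j ∈ s, ((A j).card - 1)) (J A s) := by
  have hcard : ∀ F ∈ J A s, F.card ≤ ∑ j ∈ s, ((A j).card - 1) := by
    intro F hF
    rw [card_eq_sum A s hd F ((mem_J A s F).1 hF).1]
    exact sum_le_sum (inter_card_le A s F hF)
  refine ⟨⟨?_, ?_, ?_⟩, hcard, ?_, ?_⟩
  · rw [mem_J]
    refine ⟨empty_subset _, fun j hj h => ?_⟩
    have h1 := card_le_card h
    have h2 := hne j hj
    rw [card_empty] at h1
    omega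
  · intro v
    rw [mem_J]
    refine ⟨by rw [singleton_subset_iff]; exact hcov v, fun j hj h => ?_⟩
    have h1 := card_le_card h
    have h2 := hne j hj
    rw [card_singleton] at h1
    omega
  · intro F hF G hG
    rw [mem_J] at hF ⊢
    exact ⟨hG.trans hF.1, fun j hj h => hF.2 j hj (h.trans hG)⟩
  · intro F hF
    have hF' := (mem_J A s F).1 hF
    rcases isEmpty_or_nonempty α with hα | hα
    · have hs : s = ∅ := by
        rw [eq_empty_iff_forall_notMem]
        intro j hj
        have h1 := hne j hj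
        have h2 : (A j).card = 0 := by
          rw [card_eq_zero, eq_empty_iff_forall_notMem]
          intro x; exact hα.elim x
        omega
      subst hs
      refine ⟨F, hF, Subset.refl _, ?_⟩
      rw [sum_empty, card_eq_zero, eq_empty_iff_forall_notMem]
      intro x; exact hα.elim x
    have hx : ∀ j : ι, ∃ x : α, j ∈ s → x ∈ A j ∧ x ∉ F := by
      intro j
      by_cases hj : j ∈ s
      · obtain ⟨x, hx1, hx2⟩ := not_subset.1 (hF'.2 j hj)
        exact ⟨x, fun _ => ⟨hx1, hx2⟩⟩
      · obtain ⟨x⟩ := hα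
        exact ⟨x, fun h => absurd h hj⟩
    choose x hx using hx
    refine ⟨s.biUnion (fun j => (A j).erase (x j)), ?_, ?_, ?_⟩
    · rw [mem_J]
      refine ⟨biUnion_mono fun j _ => erase_subset _ _, fun j hj h => ?_⟩
      have := h (hx j hj).1
      rw [mem_biUnion] at this
      obtain ⟨i, hi, hxi⟩ := this
      rw [mem_erase] at hxi
      by_cases hij : i = j
      · subst hij; exact hxi.1 rfl
      · exact disjoint_left.1 (hd i hi j hj hij) hxi.2 (hx j hj).1
    · intro y hy
      have := hF'.1 hy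
      rw [mem_biUnion] at this ⊢
      obtain ⟨j, hj, hyj⟩ := this
      refine ⟨j, hj, mem_erase.2 ⟨?_, hyj⟩⟩
      rintro rfl
      exact (hx j hj).2 hy
    · rw [card_biUnion]
      · apply sum_congr rfl
        intro j hj
        rw [card_erase_of_mem (hx j hj).1]
      · intro i hi j hj hij
        exact Finset.disjoint_of_subset_left (erase_subset _ _)
          (Finset.disjoint_of_subset_right (erase_subset _ _) (hd i hi j hj hij))
  · intro σ hσ
    rw [link_J A s σ hσ]
    have h1 : ∑ j ∈ s, ((A j).card - 1) - σ.card = ∑ j ∈ s, ((A j \ σ).card - 1) := by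
      rw [card_eq_sum A s hd σ ((mem_J A s σ).1 hσ).1]
      have h2 : ∑ j ∈ s, ((A j).card - 1) = ∑ j ∈ s, ((A j \ σ).card - 1) + ∑ j ∈ s, (A j ∩ σ).card := by
        rw [← sum_add_distrib]
        apply sum_congr rfl
        intro j hj
        have h3 := inter_card_le A s σ hσ j hj
        have h4 := card_sdiff_add_card_inter (A j) σ
        have h5 := hne j hj
        omega
      omega
    rw [h1]
    apply sphereHom_J
    · intro j hj
      rw [mem_J] at hσ
      exact sdiff_nonempty.2 (hσ.2 j hj)
    · intro i hi j hj hij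
      exact Finset.disjoint_of_subset_left sdiff_subset
        (Finset.disjoint_of_subset_right sdiff_subset (hd i hi j hj hij))

lemma missing_J (A : ι → Finset α) (s : Finset ι)
    (hd : ∀ i ∈ s, ∀ j ∈ s, i ≠ j → Disjoint (A i) (A j)) (hne : ∀ j ∈ s, (A j).Nonempty)
    (hcov : ∀ x, x ∈ s.biUnion A) (τ : Finset α) :
    IsMissing (J A s) τ ↔ ∃ j ∈ s, τ = A j := by
  have hsub : ∀ F : Finset α, F ⊆ s.biUnion A := fun F x _ => hcov x
  constructor
  · rintro ⟨h1, h2⟩
    rw [mem_J] at h1
    push Not at h1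
    obtain ⟨j, hj, h⟩ := h1 (hsub τ)
    refine ⟨j, hj, ?_⟩
    by_contra hne
    have := h2 (A j) ⟨h, fun h3 => hne (Subset.antisymm h3 h)⟩
    rw [mem_J] at this
    exact this.2 j hj (Subset.refl _)
  · rintro ⟨j, hj, rfl⟩
    refine ⟨fun h => ?_, fun ρ hρ => ?_⟩
    · rw [mem_J] at h
      exact h.2 j hj (Subset.refl _)
    · rw [mem_J]
      refine ⟨hsub ρ, fun i hi h => ?_⟩
      by_cases hij : i = j
      · subst hij
        exact hρ.2 h
      · obtain ⟨x, hx⟩ := hne i hi
        exact disjoint_left.1 (hd i hi j hj hij) hx (hρ.1 (h hx))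

/-! ### The `h`-polynomial -/

open Polynomial

lemma sum_ssubsets (A : Finset α) (hA : A.Nonempty) :
    ∑ F ∈ A.ssubsets, ((X : ℤ[X]) - 1) ^ (A.card - 1 - F.card) = ∑ i ∈ range A.card, X ^ i := by
  have hne : ((X : ℤ[X]) - 1) ≠ 0 := by
    intro h
    have := congrArg (fun p => Polynomial.coeff p 1) h
    simp [Polynomial.coeff_one] at this
  apply mul_right_cancel₀ hne
  rw [geom_sum_mul, sum_mul]
  have h1 : ∑ F ∈ A.powerset, (1 : ℤ[X]) ^ F.card * (X - 1) ^ (A.card - F.card) = (1 + (X - 1)) ^ A.card :=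
    sum_pow_mul_eq_add_pow 1 (X - 1) A
  have h2 : A.powerset = insert A A.ssubsets := by
    ext F
    rw [mem_powerset, mem_insert, mem_ssubsets, ssubset_iff_subset_ne]
    constructor
    · intro h
      by_cases hF : F = A
      · exact Or.inl hF
      · exact Or.inr ⟨h, hF⟩
    · rintro (rfl | h)
      · exact Subset.refl _
      · exact h.1
  rw [h2, sum_insert (by simp)] at h1
  simp only [one_pow, one_mul, Nat.sub_self, pow_zero] at h1
  have h3 : (1 : ℤ[X]) + (X - 1) = X := by ring
  rw [h3] at h1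
  rw [← h1, add_sub_cancel_left]
  apply sum_congr rfl
  intro F hF
  rw [mem_ssubsets] at hF
  have := card_lt_card hF
  rw [← pow_succ]
  congr 1
  omega

lemma hPoly_J (A : ι → Finset α) (s : Finset ι) (hne : ∀ j ∈ s, (A j).Nonempty)
    (hd : ∀ i ∈ s, ∀ j ∈ s, i ≠ j → Disjoint (A i) (A j)) :
    hPoly (∑ j ∈ s, ((A j).card - 1)) (J A s) = ∏ j ∈ s, ∑ i ∈ range (A j).card, X ^ i := by
  induction s using Finset.induction_on with
  | empty =>
    have : J A ∅ = {∅} := by
      ext F
      rw [mem_J]
      simp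
    rw [this]
    simp [hPoly]
  | insert i s hi ih =>
    have hd' : ∀ j ∈ s, Disjoint (A j) (A i) := fun j hj =>
      hd j (mem_insert_of_mem hj) i (mem_insert_self i s) (fun h => hi (h ▸ hj))
    have hd2 : ∀ a ∈ s, ∀ b ∈ s, a ≠ b → Disjoint (A a) (A b) :=
      fun a ha b hb => hd a (mem_insert_of_mem ha) b (mem_insert_of_mem hb)
    have ih' := ih (fun j hj => hne j (mem_insert_of_mem hj)) hd2
    rw [prod_insert hi, ← ih', sum_insert hi, J_insert A s i hi hd',
      ← sum_ssubsets (A i) (hne i (mem_insert_self i s))]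
    unfold hPoly
    rw [sum_mul_sum, ← sum_product']
    have hdis := J_disjoint A s i hd'
    refine sum_bij' (fun F _ => (F ∩ A i, F \ A i)) (fun p _ => p.1 ∪ p.2) ?_ ?_ ?_ ?_ ?_
    · intro F hF
      rw [mem_jn] at hF
      rw [mem_product, mem_ssubsets]
      refine ⟨⟨inter_subset_right, fun h => hF.1 (h.trans inter_subset_left)⟩, hF.2⟩
    · rintro ⟨F, G⟩ h
      rw [mem_product, mem_ssubsets] at h
      have h3 := hdis G h.2
      have h4 : (F ∪ G) \ A i = G := by
        rw [union_sdiff_distrib, sdiff_eq_empty_iff_subset.2 h.1.1, empty_union,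
          sdiff_eq_self_of_disjoint h3]
      rw [mem_jn]
      refine ⟨fun h2 => ?_, by rw [h4]; exact h.2⟩
      apply h.1.2
      intro x hx
      rcases mem_union.1 (h2 hx) with h5 | h5
      · exact h5
      · exact absurd hx (disjoint_left.1 h3 h5)
    · intro F _
      simp only
      rw [union_comm]
      exact sdiff_union_inter F (A i)
    · rintro ⟨F, G⟩ h
      rw [mem_product, mem_ssubsets] at h
      have h3 := hdis G h.2
      simp only [Prod.mk.injEq]
      constructor
      · rw [union_inter_distrib_right, inter_eq_left.2 h.1.1, disjoint_iff_inter_eq_empty.1 h3,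
          union_empty]
      · rw [union_sdiff_distrib, sdiff_eq_empty_iff_subset.2 h.1.1, empty_union,
          sdiff_eq_self_of_disjoint h3]
    · intro F hF
      rw [mem_jn] at hF
      simp only
      rw [← pow_add]
      congr 1
      have h1 : (F ∩ A i).card < (A i).card := by
        apply card_lt_card
        exact ⟨inter_subset_right, fun h => hF.1 (h.trans inter_subset_left)⟩
      have h2 := hF.2
      have h3 : (F \ A i).card ≤ ∑ j ∈ s, ((A j).card - 1) := by
        rw [card_eq_sum A s hd2 _ ((mem_J A s _).1 h2).1]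
        exact sum_le_sum (inter_card_le A s _ h2)
      have h4 := card_sdiff_add_card_inter F (A i)
      omega

end Pool.Agent.Q141.Join
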